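import Mathlib
import Pool.Agent.Helper540.GrowthUp
import Pool.Agent.Helper540.GrowthLo

set_option autoImplicit false

namespace Pool.Agent.Results.MP_ea326e_an.SharpGrowth

open Set Metric Pool.Agent.Helper540

/-- The Caratheodory family of the Euclidean unit ball of `C^n`: maps `h`, holomorphic in the
ball, with `h 0 = 0`, `D h 0 = I` and `Re <h z, z> > 0` for every `z ≠ 0` of the ball
(Mathlib's `inner ℂ z w` is conjugate linear in `z`, so it is the `<w, z>` of the problem). -/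
def caratheodory (n : ℕ) : Set (EuclideanSpace ℂ (Fin n) → EuclideanSpace ℂ (Fin n)) :=
  {h | DifferentiableOn ℂ h (ball 0 1) ∧ h 0 = 0 ∧
    fderiv ℂ h 0 = ContinuousLinearMap.id ℂ (EuclideanSpace ℂ (Fin n)) ∧
    ∀ z ∈ ball (0 : EuclideanSpace ℂ (Fin n)) 1, z ≠ 0 → 0 < (inner ℂ z (h z)).re}

/-- All the values `‖h z‖` with `h` in the Caratheodory family and `‖z‖ = r`. -/
def growthSet (n : ℕ) (r : ℝ) : Set ℝ :=
  {x | ∃ h ∈ caratheodory n, ∃ z : EuclideanSpace ℂ (Fin n), ‖z‖ = r ∧ x = ‖h z‖}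

/-- The sharp growth bound `m_n(r)` of the problem. -/
noncomputable def growth (n : ℕ) (r : ℝ) : ℝ := sSup (growthSet n r)

/-- The positive root `S` of `(2 - p) S² + (1 - p) (1 - p - p²) S = p²`. -/
noncomputable def rootS (p : ℝ) : ℝ :=
  (-((1 - p) * (1 - p - p ^ 2)) + √(((1 - p) * (1 - p - p ^ 2)) ^ 2 + 4 * (2 - p) * p ^ 2)) /
    (2 * (2 - p))

/-- The radius with parameter `p`. -/
noncomputable def radius (p : ℝ) : ℝ :=
  √(rootS p * (p * (1 + p) + (1 - p) * rootS p) / (p + (2 - p) * rootS p))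

/-- The sharp bound at the radius with parameter `p`. -/
noncomputable def maxNorm (p : ℝ) : ℝ :=
  √(p * (1 - rootS p) * (p + (2 - p) * rootS p)) / (1 - p) ^ 2

theorem rootS_eq {p : ℝ} (h1 : p < 1) :
    (2 - p) * rootS p ^ 2 + (1 - p) * (1 - p - p ^ 2) * rootS p = p ^ 2 := by
  have h2 : 0 < 2 - p := by linarith
  have hD : 0 ≤ ((1 - p) * (1 - p - p ^ 2)) ^ 2 + 4 * (2 - p) * p ^ 2 := by positivity
  have hs := Real.sq_sqrt hD
  have hS : rootS p * (2 * (2 - p)) = -((1 - p) * (1 - p - p ^ 2)) +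
      √(((1 - p) * (1 - p - p ^ 2)) ^ 2 + 4 * (2 - p) * p ^ 2) := by
    unfold rootS
    exact div_mul_cancel₀ _ (by positivity)
  set A := (1 - p) * (1 - p - p ^ 2) with hA
  set D := √(A ^ 2 + 4 * (2 - p) * p ^ 2) with hDd
  set S := rootS p with hSd
  have h3 : (2 * (2 - p) * S + A) ^ 2 = A ^ 2 + 4 * (2 - p) * p ^ 2 := by
    rw [← hs]
    have : 2 * (2 - p) * S + A = D := by linarith
    rw [this]
  have h4 : 4 * (2 - p) * ((2 - p) * S ^ 2 + A * S) = 4 * (2 - p) * p ^ 2 := by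
    linear_combination h3
  exact mul_left_cancel₀ (by positivity) h4

theorem rootS_pos {p : ℝ} (h0 : 0 < p) (h1 : p < 1) : 0 < rootS p := by
  have h2 : 0 < 2 - p := by linarith
  unfold rootS
  apply div_pos _ (by positivity)
  set A := (1 - p) * (1 - p - p ^ 2) with hA
  have h3 : √(A ^ 2) < √(A ^ 2 + 4 * (2 - p) * p ^ 2) := by
    apply Real.sqrt_lt_sqrt (sq_nonneg _)
    have : 0 < 4 * (2 - p) * p ^ 2 := by positivity
    linarith
  rw [Real.sqrt_sq_eq_abs] at h3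
  have h4 := le_abs_self A
  linarith

theorem crit_rootS {p : ℝ} (h0 : 0 < p) (h1 : p < 1) : Crit p (rootS p) :=
  ⟨h0, h1, rootS_pos h0 h1, rootS_eq h1⟩

theorem radius_sq {p : ℝ} (h0 : 0 < p) (h1 : p < 1) :
    radius p ^ 2 * (p + (2 - p) * rootS p) =
      rootS p * (p * (1 + p) + (1 - p) * rootS p) := by
  have c := crit_rootS h0 h1
  have hQ := c.Q0
  have hS := c.S0
  have h3 : 0 < 1 - p := by linarith
  unfold radius
  rw [Real.sq_sqrt (by positivity)]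
  exact div_mul_cancel₀ _ hQ.ne'

theorem maxNorm_sq {p : ℝ} (h0 : 0 < p) (h1 : p < 1) :
    maxNorm p ^ 2 * (1 - p) ^ 4 = p * (1 - rootS p) * (p + (2 - p) * rootS p) := by
  have c := crit_rootS h0 h1
  have hQ := c.Q0
  have hS := c.hi
  have h3 : 0 < 1 - p := by linarith
  have h4 : 0 < 1 - rootS p := by linarith
  unfold maxNorm
  rw [div_pow, Real.sq_sqrt (by positivity)]
  field_simp

theorem maxNorm_nonneg (p : ℝ) : 0 ≤ maxNorm p := by
  unfold maxNorm
  positivity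

theorem radius_nonneg (p : ℝ) : 0 ≤ radius p := Real.sqrt_nonneg _

theorem radius_gt {p : ℝ} (h0 : 0 < p) (h1 : p < 1) : p < radius p := by
  have := (crit_rootS h0 h1).R_lo (radius_sq h0 h1)
  exact lt_of_pow_lt_pow_left₀ 2 (radius_nonneg p) this

theorem radius_sq_lt {p : ℝ} (h0 : 0 < p) (h1 : p < 1) : radius p ^ 2 < p :=
  (crit_rootS h0 h1).R_hi (radius_sq h0 h1)

theorem radius_mem {p : ℝ} (hp : p ∈ Ioo (0 : ℝ) 1) : radius p ∈ Ioo (0 : ℝ) 1 := by
  obtain ⟨h0, h1⟩ := hp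
  refine ⟨h0.trans (radius_gt h0 h1), ?_⟩
  have h2 := radius_sq_lt h0 h1
  have h3 : radius p ^ 2 < 1 ^ 2 := by rw [one_pow]; exact h2.trans h1
  exact lt_of_pow_lt_pow_left₀ 2 zero_le_one h3

theorem radius_mono : StrictMonoOn radius (Ioo (0 : ℝ) 1) := by
  intro p hp q hq hpq
  have h := (crit_rootS hp.1 hp.2).R_mono (crit_rootS hq.1 hq.2) (radius_sq hp.1 hp.2)
    (radius_sq hq.1 hq.2) hpq
  exact lt_of_pow_lt_pow_left₀ 2 (radius_nonneg q) h

theorem rootS_cont : ContinuousOn rootS (Ioo (0 : ℝ) 1) := by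
  unfold rootS
  apply ContinuousOn.div
  · fun_prop
  · fun_prop
  · intro p hp
    have : 0 < 2 - p := by linarith [hp.2]
    positivity

theorem radius_cont : ContinuousOn radius (Ioo (0 : ℝ) 1) := by
  have h := rootS_cont
  have h2 : ContinuousOn (fun p => rootS p * (p * (1 + p) + (1 - p) * rootS p) /
      (p + (2 - p) * rootS p)) (Ioo (0 : ℝ) 1) := by
    apply ContinuousOn.div
    · fun_prop
    · fun_prop
    · intro p hp
      exact (crit_rootS hp.1 hp.2).Q0.ne'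
  exact h2.sqrt

theorem radius_surj {r : ℝ} (hr : r ∈ Ioo (0 : ℝ) 1) : ∃ p ∈ Ioo (0 : ℝ) 1, radius p = r := by
  obtain ⟨h0, h1⟩ := hr
  have h2 : r ^ 2 < r := by nlinarith
  have h3 : 0 < r ^ 2 := by positivity
  have hsub : Icc (r ^ 2) r ⊆ Ioo (0 : ℝ) 1 :=
    fun x hx => ⟨h3.trans_le hx.1, hx.2.trans_lt h1⟩
  have hl : radius (r ^ 2) ≤ r :=
    (lt_of_pow_lt_pow_left₀ 2 h0.le (radius_sq_lt h3 (h2.trans h1))).le
  have hu : r ≤ radius r := (radius_gt h0 h1).le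
  have hi := intermediate_value_Icc h2.le (radius_cont.mono hsub)
  obtain ⟨p, hp, e⟩ := hi ⟨hl, hu⟩
  exact ⟨p, hsub hp, e⟩

theorem isGreatest_maxNorm {n : ℕ} (hn : 2 ≤ n) {p : ℝ} (hp : p ∈ Ioo (0 : ℝ) 1) :
    IsGreatest (growthSet n (radius p)) (maxNorm p) := by
  obtain ⟨h0, h1⟩ := hp
  have c := crit_rootS h0 h1
  constructor
  · have hij : (⟨0, by omega⟩ : Fin n) ≠ ⟨1, by omega⟩ := by
      intro h
      simp at h
    obtain ⟨h, hd, hz, hf, hpos, z, hzR, hzm⟩ :=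
      exMap_attains hij c (radius_sq h0 h1) (maxNorm_sq h0 h1)
    refine ⟨h, ⟨hd, hz, hf, hpos⟩, z, ?_, ?_⟩
    · exact (sq_eq_sq₀ (norm_nonneg _) (radius_nonneg p)).1 hzR
    · exact ((sq_eq_sq₀ (norm_nonneg _) (maxNorm_nonneg p)).1 hzm).symm
  · rintro x ⟨h, ⟨hd, hz, hf, hpos⟩, z, hzr, rfl⟩
    have hr : 0 < radius p := h0.trans (radius_gt h0 h1)
    have := growth_le hd hz hf hpos c (maxNorm_sq h0 h1) hr hzr (radius_sq h0 h1)
    exact (pow_le_pow_iff_left₀ (norm_nonneg _) (maxNorm_nonneg p) two_ne_zero).1 this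

/-- The sharp growth bound of the Caratheodory family of the unit ball of `C^n`, `n ≥ 2`. -/
theorem result :
    (∀ p ∈ Ioo (0 : ℝ) 1, ∀ S : ℝ,
      (0 < S ∧ (2 - p) * S ^ 2 + (1 - p) * (1 - p - p ^ 2) * S = p ^ 2) ↔ S = rootS p) ∧
    StrictMonoOn radius (Ioo (0 : ℝ) 1) ∧ BijOn radius (Ioo (0 : ℝ) 1) (Ioo (0 : ℝ) 1) ∧
    (∀ n : ℕ, 2 ≤ n → ∀ p ∈ Ioo (0 : ℝ) 1,
      IsGreatest (growthSet n (radius p)) (maxNorm p) ∧ growth n (radius p) = maxNorm p) ∧
    ∀ r ∈ Ioo (0 : ℝ) 1, ∃! p : ℝ, p ∈ Ioo (0 : ℝ) 1 ∧ radius p = r ∧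
      ∀ n : ℕ, 2 ≤ n → growth n r = maxNorm p := by
  refine ⟨?_, radius_mono, ⟨fun p hp => radius_mem hp, radius_mono.injOn, ?_⟩, ?_, ?_⟩
  · intro p hp S
    have c := crit_rootS hp.1 hp.2
    constructor
    · rintro ⟨hS, e⟩
      have e2 := c.eq
      have h3 : (S - rootS p) * ((2 - p) * (S * rootS p) + p ^ 2) = 0 := by
        linear_combination rootS p * e - S * e2
      have h4 : 0 < (2 - p) * (S * rootS p) + p ^ 2 := by
        have : 0 < 2 - p := by linarith [hp.2]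
        have := c.S0
        have := hp.1
        positivity
      rcases mul_eq_zero.1 h3 with h | h
      · linarith
      · exact absurd h h4.ne'
    · rintro rfl
      exact ⟨c.S0, c.eq⟩
  · intro r hr
    obtain ⟨p, hp, e⟩ := radius_surj hr
    exact ⟨p, hp, e⟩
  · intro n hn p hp
    have := isGreatest_maxNorm hn hp
    exact ⟨this, this.csSup_eq⟩
  · intro r hr
    obtain ⟨p, hp, e⟩ := radius_surj hr
    refine ⟨p, ⟨hp, e, ?_⟩, ?_⟩
    · intro n hn
      have := (isGreatest_maxNorm hn hp).csSup_eq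
      rw [← e]
      exact this
    · rintro q ⟨hq, eq, _⟩
      exact radius_mono.injOn hq hp (eq.trans e.symm)

end Pool.Agent.Results.MP_ea326e_an.SharpGrowth
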